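import Mathlib

/-!
# An exponential gap between broadcast dimension and adjacency dimension (MP_d61170_co, Q1)
-/

set_option autoImplicit false

namespace Pool.Agent.Results.MP_d61170_co.ExponentialGap

/-- `f` is a resolving broadcast of `G`: for all distinct `x, y` there is a vertex `z` with
`f z = i > 0` and `min (d (x, z)) (i + 1) ≠ min (d (y, z)) (i + 1)`.  (The extended distance `edist`
is `∞` between different components.) -/
def IsResolving {V : Type} (G : SimpleGraph V) (f : V → ℕ) : Prop :=
  ∀ x y : V, x ≠ y → ∃ z : V, 0 < f z ∧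
    min (G.edist x z) (f z + 1) ≠ min (G.edist y z) (f z + 1)

/-- The broadcast dimension of a finite graph. -/
noncomputable def bdim {V : Type} [Fintype V] (G : SimpleGraph V) : ℕ :=
  sInf {c | ∃ f : V → ℕ, IsResolving G f ∧ ∑ v, f v = c}

/-- The adjacency dimension of a finite graph: the same minimum over the resolving broadcasts with
values in `{0, 1}`. -/
noncomputable def adim {V : Type} [Fintype V] (G : SimpleGraph V) : ℕ :=
  sInf {c | ∃ f : V → ℕ, IsResolving G f ∧ (∀ v, f v = 0 ∨ f v = 1) ∧ ∑ v, f v = c}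

section general

variable {V : Type} {G : SimpleGraph V}

lemma edist_le_one_iff (x y : V) : G.edist x y ≤ 1 ↔ x = y ∨ G.Adj x y := by
  constructor
  · intro h
    have hne : G.edist x y ≠ ⊤ := fun h' => by rw [h'] at h; exact absurd h (by simp)
    obtain ⟨p, hp⟩ := SimpleGraph.exists_walk_of_edist_ne_top hne
    rw [← hp] at h
    have h' : p.length ≤ 1 := by exact_mod_cast h
    cases p with
    | nil => exact Or.inl rfl
    | cons hadj q =>
      rw [SimpleGraph.Walk.length_cons] at h'
      have : q.length = 0 := by omega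
      have := SimpleGraph.Walk.eq_of_length_eq_zero this
      subst this
      exact Or.inr hadj
  · rintro (rfl | h)
    · simp
    · exact (SimpleGraph.edist_le (SimpleGraph.Walk.cons h SimpleGraph.Walk.nil)).trans (by simp)

lemma edist_le_two_iff (x y : V) :
    G.edist x y ≤ 2 ↔ x = y ∨ G.Adj x y ∨ ∃ w, G.Adj x w ∧ G.Adj w y := by
  constructor
  · intro h
    have hne : G.edist x y ≠ ⊤ := fun h' => by rw [h'] at h; exact absurd h (by simp)
    obtain ⟨p, hp⟩ := SimpleGraph.exists_walk_of_edist_ne_top hne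
    rw [← hp] at h
    have h' : p.length ≤ 2 := by exact_mod_cast h
    cases p with
    | nil => exact Or.inl rfl
    | cons hadj q =>
      rw [SimpleGraph.Walk.length_cons] at h'
      cases q with
      | nil => exact Or.inr (Or.inl hadj)
      | cons hadj' r =>
        rw [SimpleGraph.Walk.length_cons] at h'
        have : r.length = 0 := by omega
        have := SimpleGraph.Walk.eq_of_length_eq_zero this
        subst this
        exact Or.inr (Or.inr ⟨_, hadj, hadj'⟩)
  · rintro (rfl | h | ⟨w, h1, h2⟩)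
    · simp
    · exact (SimpleGraph.edist_le (SimpleGraph.Walk.cons h SimpleGraph.Walk.nil)).trans
        (by simp)
    · exact (SimpleGraph.edist_le (SimpleGraph.Walk.cons h1
        (SimpleGraph.Walk.cons h2 SimpleGraph.Walk.nil))).trans (by simp)

lemma edist_hom_le {W : Type} {H : SimpleGraph W} (φ : G →g H) (x y : V) :
    H.edist (φ x) (φ y) ≤ G.edist x y := by
  unfold SimpleGraph.edist
  refine le_iInf fun w => (iInf_le _ (w.map φ)).trans ?_
  simp

/-- different truncated distances -/
lemma trunc_ne {a b : ℕ∞} {k : ℕ} (ha : a ≤ k) (hb : a < b) :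
    min a ((k : ℕ∞) + 1) ≠ min b (k + 1) := by
  have hak : a < (k : ℕ∞) + 1 := lt_of_le_of_lt ha (by exact_mod_cast Nat.lt_succ_self k)
  have h1 : min a ((k : ℕ∞) + 1) = a := min_eq_left hak.le
  rw [h1]
  exact (lt_min hb hak).ne

lemma self_resolve {f : V → ℕ} {x y : V} (hxy : x ≠ y) (_hx : 0 < f x) :
    min (G.edist x x) (f x + 1) ≠ min (G.edist y x) (f x + 1) := by
  apply trunc_ne
  · simp
  · rw [SimpleGraph.edist_self]
    rw [pos_iff_ne_zero]
    intro h
    exact hxy (SimpleGraph.edist_eq_zero_iff.1 h).symm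

/-- the number of the broadcasting vertices gives a resolving broadcast -/
lemma exists_resolving [Fintype V] : ∃ f : V → ℕ, IsResolving G f ∧ (∀ v, f v = 0 ∨ f v = 1) :=
  ⟨fun _ => 1, fun x _ hxy => ⟨x, one_pos, self_resolve (f := fun _ => 1) hxy one_pos⟩,
    fun _ => Or.inr rfl⟩

lemma bdim_spec [Fintype V] : ∃ f : V → ℕ, IsResolving G f ∧ ∑ v, f v = bdim G := by
  obtain ⟨f, hf, -⟩ := exists_resolving (G := G)
  exact Nat.sInf_mem (s := {c | ∃ f : V → ℕ, IsResolving G f ∧ ∑ v, f v = c}) ⟨_, f, hf, rfl⟩

lemma adim_spec [Fintype V] : ∃ f : V → ℕ, IsResolving G f ∧ (∀ v, f v = 0 ∨ f v = 1) ∧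
    ∑ v, f v = adim G := by
  obtain ⟨f, hf, hf'⟩ := exists_resolving (G := G)
  exact Nat.sInf_mem (s := {c | ∃ f : V → ℕ, IsResolving G f ∧ (∀ v, f v = 0 ∨ f v = 1) ∧
    ∑ v, f v = c}) ⟨_, f, hf, hf', rfl⟩

lemma bdim_le [Fintype V] {f : V → ℕ} (hf : IsResolving G f) : bdim G ≤ ∑ v, f v :=
  Nat.sInf_le ⟨f, hf, rfl⟩

end general

/-! ### Adding isolated vertices -/

section pad

variable {V : Type} (G : SimpleGraph V)

/-- `G` with `n` additional isolated vertices -/
def pad (n : ℕ) : SimpleGraph (V ⊕ Fin n) where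
  Adj a b := ∃ x y, a = Sum.inl x ∧ b = Sum.inl y ∧ G.Adj x y
  symm := ⟨fun _ _ ⟨x, y, hx, hy, h⟩ => ⟨y, x, hy, hx, h.symm⟩⟩
  loopless := ⟨fun a ⟨x, y, hx, hy, h⟩ => by
    rw [hx] at hy
    exact h.ne (Sum.inl_injective hy)⟩

lemma pad_adj {n : ℕ} {x y : V} : (pad G n).Adj (Sum.inl x) (Sum.inl y) ↔ G.Adj x y := by
  constructor
  · rintro ⟨a, b, ha, hb, h⟩
    rw [Sum.inl_injective ha, Sum.inl_injective hb]
    exact h
  · intro h
    exact ⟨x, y, rfl, rfl, h⟩

lemma pad_edist_isolated {n : ℕ} {i : Fin n} {z : V ⊕ Fin n} (h : z ≠ Sum.inr i) :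
    (pad G n).edist (Sum.inr i) z = ⊤ := by
  by_contra hne
  obtain ⟨p, -⟩ := SimpleGraph.exists_walk_of_edist_ne_top hne
  cases p with
  | nil => exact h rfl
  | cons hadj q =>
    obtain ⟨x, y, hx, -, -⟩ := hadj
    exact absurd hx (by simp)

/-- one more isolated vertex costs at most one -/
lemma bdim_pad_succ [Fintype V] [Nonempty V] (n : ℕ) :
    bdim (pad G (n + 1)) ≤ bdim (pad G n) + 1 := by
  obtain ⟨f, hf, hs⟩ := bdim_spec (G := pad G n)
  let v0 : V := Classical.arbitrary V
  let i : V ⊕ Fin n → V ⊕ Fin (n + 1) := Sum.map id Fin.castSucc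
  let r : V ⊕ Fin (n + 1) → V ⊕ Fin n :=
    Sum.elim Sum.inl (fun t => if h : t.1 < n then Sum.inr ⟨t.1, h⟩ else Sum.inl v0)
  let φ : pad G n →g pad G (n + 1) :=
    ⟨i, by
      rintro a b ⟨x, y, rfl, rfl, h⟩
      exact ⟨x, y, rfl, rfl, h⟩⟩
  let ψ : pad G (n + 1) →g pad G n :=
    ⟨r, by
      rintro a b ⟨x, y, rfl, rfl, h⟩
      exact ⟨x, y, rfl, rfl, h⟩⟩
  have hri : ∀ a, r (i a) = a := by
    rintro (a | a)
    · rfl
    · show (if h : (Fin.castSucc a).1 < n then Sum.inr ⟨(Fin.castSucc a).1, h⟩ else Sum.inl v0)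
        = Sum.inr a
      rw [dif_pos (show (Fin.castSucc a).1 < n from a.2)]
      rfl
  have hd : ∀ a b, (pad G (n + 1)).edist (i a) (i b) = (pad G n).edist a b := by
    intro a b
    apply le_antisymm
    · exact edist_hom_le φ a b
    · have := edist_hom_le ψ (i a) (i b)
      have h1 : ψ (i a) = a := hri a
      have h2 : ψ (i b) = b := hri b
      rwa [h1, h2] at this
  let g : V ⊕ Fin (n + 1) → ℕ :=
    Sum.elim (fun x => f (Sum.inl x)) (fun t => if h : t.1 < n then f (Sum.inr ⟨t.1, h⟩) else 1)
  have hgi : ∀ a, g (i a) = f a := by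
    rintro (a | a)
    · rfl
    · show (if h : (Fin.castSucc a).1 < n then f (Sum.inr ⟨(Fin.castSucc a).1, h⟩) else 1)
        = f (Sum.inr a)
      rw [dif_pos (show (Fin.castSucc a).1 < n from a.2)]
      rfl
  have hlast : g (Sum.inr (Fin.last n)) = 1 := by
    show (if h : (Fin.last n).1 < n then f (Sum.inr ⟨(Fin.last n).1, h⟩) else 1) = 1
    rw [dif_neg (by simp)]
  have hcases : ∀ a : V ⊕ Fin (n + 1), (∃ b, a = i b) ∨ a = Sum.inr (Fin.last n) := by
    rintro (a | a)
    · exact Or.inl ⟨Sum.inl a, rfl⟩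
    · by_cases h : a = Fin.last n
      · exact Or.inr (by rw [h])
      · exact Or.inl ⟨Sum.inr (a.castPred h), by simp [i]⟩
  have hg : IsResolving (pad G (n + 1)) g := by
    intro x y hxy
    rcases hcases x with ⟨a, rfl⟩ | rfl
    · rcases hcases y with ⟨b, rfl⟩ | rfl
      · have hab : a ≠ b := fun h => hxy (by rw [h])
        obtain ⟨z, hz, hne⟩ := hf a b hab
        refine ⟨i z, by rw [hgi]; exact hz, ?_⟩
        rw [hd, hd, hgi]
        exact hne
      · refine ⟨Sum.inr (Fin.last n), by rw [hlast]; exact one_pos, ?_⟩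
        exact (self_resolve hxy.symm (by rw [hlast]; exact one_pos)).symm
    · exact ⟨Sum.inr (Fin.last n), by rw [hlast]; exact one_pos,
        self_resolve hxy (by rw [hlast]; exact one_pos)⟩
  refine (bdim_le hg).trans ?_
  rw [← hs, Fintype.sum_sum_type, Fintype.sum_sum_type, Fin.sum_univ_castSucc, hlast, ← add_assoc]
  apply le_of_eq
  congr 2
  exact Finset.sum_congr rfl fun t _ => hgi (Sum.inr t)

/-- all but one of the isolated vertices must broadcast -/
lemma le_bdim_pad [Fintype V] (n : ℕ) : n ≤ bdim (pad G n) + 1 := by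
  obtain ⟨f, hf, hs⟩ := bdim_spec (G := pad G n)
  rw [← hs, Fintype.sum_sum_type]
  have h1 : n ≤ ∑ t : Fin n, f (Sum.inr t) + 1 := by
    by_cases hall : ∀ t : Fin n, 0 < f (Sum.inr t)
    · have : ∑ _t : Fin n, 1 ≤ ∑ t : Fin n, f (Sum.inr t) :=
        Finset.sum_le_sum fun t _ => hall t
      simp at this
      omega
    · push Not at hall
      obtain ⟨t0, ht0⟩ := hall
      have hpos : ∀ t ∈ Finset.univ.erase t0, 1 ≤ f (Sum.inr t) := by
        intro t ht
        by_contra hlt
        have htt : t ≠ t0 := Finset.ne_of_mem_erase ht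
        obtain ⟨z, hz, hne⟩ := hf (Sum.inr t) (Sum.inr t0) (fun h => htt (Sum.inr_injective h))
        have hz1 : z ≠ Sum.inr t := fun h => by rw [h] at hz; omega
        have hz2 : z ≠ Sum.inr t0 := fun h => by rw [h] at hz; omega
        rw [pad_edist_isolated G hz1, pad_edist_isolated G hz2] at hne
        exact hne rfl
      have h2 := Finset.sum_le_sum hpos
      have h3 : ∑ t ∈ Finset.univ.erase t0, f (Sum.inr t) ≤ ∑ t : Fin n, f (Sum.inr t) :=
        Finset.sum_le_sum_of_subset (Finset.erase_subset _ _)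
      rw [Finset.sum_const, Finset.card_erase_of_mem (Finset.mem_univ _), Finset.card_univ,
        Fintype.card_fin, smul_eq_mul, mul_one] at h2
      omega
  omega

end pad

/-- discrete intermediate values -/
lemma interpolate (b : ℕ → ℕ) (h1 : ∀ j, b (j + 1) ≤ b j + 1) (h2 : ∀ j, j ≤ b j + 1) (k : ℕ)
    (h0 : b 0 ≤ k) : ∃ j, b j = k := by
  have hex : ∃ j, k ≤ b j := ⟨k + 1, by have := h2 (k + 1); omega⟩
  classical
  have hj := Nat.find_spec hex
  refine ⟨Nat.find hex, le_antisymm ?_ hj⟩
  rcases hm : Nat.find hex with _ | m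
  · exact h0
  · have := Nat.find_min hex (m := m) (by omega)
    have := h1 m
    omega

/-! ### The graphs -/

/-- the vertices: `v a b`, to be resolved; `w i j`, connecting vertices; `z i`, broadcasting with
power two; `y t`, broadcasting with power one. -/
inductive Vx (p : ℕ)
  | v (a b : Fin p → Bool) : Vx p
  | w (i : Fin p ⊕ Fin p) (j : Fin p → Bool) : Vx p
  | z (i : Fin p ⊕ Fin p) : Vx p
  | y (t : Fin p) : Vx p

/-- the coordinates of `(a, b)` -/
def co {p : ℕ} (a b : Fin p → Bool) : Fin p ⊕ Fin p → Bool := Sum.elim a b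

/-- half of the adjacency relation -/
inductive Rel (p : ℕ) : Vx p → Vx p → Prop
  | wv (i : Fin p ⊕ Fin p) (a b : Fin p → Bool) (h : co a b i = true) : Rel p (.w i b) (.v a b)
  | wz (i : Fin p ⊕ Fin p) (j : Fin p → Bool) : Rel p (.w i j) (.z i)
  | wy (i : Fin p ⊕ Fin p) (j : Fin p → Bool) (t : Fin p) (h : j t = true) :
      Rel p (.w i j) (.y t)

/-- the graph `G_p` -/
def Gp (p : ℕ) : SimpleGraph (Vx p) where
  Adj x y := Rel p x y ∨ Rel p y x
  symm := ⟨fun _ _ h => h.symm⟩
  loopless := ⟨fun x h => by rcases h with h | h <;> cases h⟩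

/-- the vertices as a sum type -/
def eqv (p : ℕ) : Vx p ≃ (((Fin p → Bool) × (Fin p → Bool)) ⊕ ((Fin p ⊕ Fin p) × (Fin p → Bool))) ⊕
    ((Fin p ⊕ Fin p) ⊕ Fin p) where
  toFun x := match x with
    | .v a b => .inl (.inl (a, b))
    | .w i j => .inl (.inr (i, j))
    | .z i => .inr (.inl i)
    | .y t => .inr (.inr t)
  invFun x := match x with
    | .inl (.inl (a, b)) => .v a b
    | .inl (.inr (i, j)) => .w i j
    | .inr (.inl i) => .z i
    | .inr (.inr t) => .y t
  left_inv x := by cases x <;> rfl
  right_inv x := by rcases x with ((⟨a, b⟩ | ⟨i, j⟩) | (i | t)) <;> rfl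

noncomputable instance (p : ℕ) : Fintype (Vx p) := Fintype.ofEquiv _ (eqv p).symm
instance (p : ℕ) : Nonempty (Vx p) := ⟨.v (fun _ => false) (fun _ => false)⟩

/-- the cheap resolving broadcast -/
def br (p : ℕ) : Vx p → ℕ
  | .v _ _ => 0
  | .w _ _ => 0
  | .z _ => 2
  | .y _ => 1

lemma sum_br (p : ℕ) : ∑ x, br p x = 5 * p := by
  rw [← (eqv p).symm.sum_comp]
  simp only [Fintype.sum_sum_type]
  simp [eqv, br]
  ring

lemma br_resolving (p : ℕ) : IsResolving (Gp p) (br p) := by
  -- it is enough to resolve the pairs of vertices with value zero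
  intro x y hxy
  by_cases hx : 0 < br p x
  · exact ⟨x, hx, self_resolve hxy hx⟩
  by_cases hy : 0 < br p y
  · exact ⟨y, hy, (self_resolve hxy.symm hy).symm⟩
  -- distance one versus larger
  have key1 : ∀ {x y z : Vx p}, 0 < br p z → (Gp p).Adj x z → y ≠ z → ¬ (Gp p).Adj y z →
      min ((Gp p).edist x z) (br p z + 1) ≠ min ((Gp p).edist y z) (br p z + 1) := by
    intro x y z hz hxz hyz hyz'
    have h1 : (Gp p).edist x z ≤ 1 := (edist_le_one_iff x z).2 (Or.inr hxz)
    have h2 : ¬ (Gp p).edist y z ≤ 1 := fun h => by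
      rcases (edist_le_one_iff y z).1 h with h | h
      · exact hyz h
      · exact hyz' h
    refine trunc_ne (h1.trans (by exact_mod_cast hz)) (lt_of_le_of_lt h1 (not_le.1 h2))
  -- vertices `v` and `w`
  have key2 : ∀ (a b : Fin p → Bool) (i : Fin p ⊕ Fin p) (j : Fin p → Bool),
      min ((Gp p).edist (.w i j) (.z i)) (br p (.z i) + 1) ≠
        min ((Gp p).edist (.v a b) (.z i)) (br p (.z i) + 1) := by
    intro a b i j
    refine key1 (by simp [br]) (Or.inl (Rel.wz i j)) (by simp) ?_
    rintro (h | h) <;> cases h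
  have key3 : ∀ (a b a' b' : Fin p → Bool) (i : Fin p ⊕ Fin p), co a b i = true →
      co a' b' i = false →
      min ((Gp p).edist (.v a b) (.z i)) (br p (.z i) + 1) ≠
        min ((Gp p).edist (.v a' b') (.z i)) (br p (.z i) + 1) := by
    intro a b a' b' i h1 h2
    have e1 : (Gp p).edist (.v a b) (.z i) ≤ 2 :=
      (edist_le_two_iff _ _).2 (Or.inr (Or.inr ⟨.w i b, Or.inr (Rel.wv i a b h1),
        Or.inl (Rel.wz i b)⟩))
    have e2 : ¬ (Gp p).edist (.v a' b') (.z i) ≤ 2 := by
      intro h
      rcases (edist_le_two_iff _ _).1 h with h | h | ⟨u, h, h'⟩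
      · cases h
      · rcases h with h | h <;> cases h
      · rcases h' with h' | h'
        · cases h'
          rcases h with h | h
          · cases h
          · cases h
            rename_i hco
            rw [h2] at hco
            exact Bool.false_ne_true hco
        · cases h'
    exact trunc_ne e1 (lt_of_le_of_lt e1 (not_le.1 e2))
  cases x with
  | z i => exact absurd (by simp [br]) hx
  | y t => exact absurd (by simp [br]) hx
  | v a b =>
    cases y with
    | z i => exact absurd (by simp [br]) hy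
    | y t => exact absurd (by simp [br]) hy
    | w i j => exact ⟨.z i, by simp [br], (key2 a b i j).symm⟩
    | v a' b' =>
      have hne : ∃ i, co a b i ≠ co a' b' i := by
        by_contra hno
        push Not at hno
        apply hxy
        have h1 : a = a' := funext fun t => hno (Sum.inl t)
        have h2 : b = b' := funext fun t => hno (Sum.inr t)
        rw [h1, h2]
      obtain ⟨i, hi⟩ := hne
      refine ⟨.z i, by simp [br], ?_⟩
      cases h1 : co a b i
      · have h2 : co a' b' i = true := by
          cases h2 : co a' b' i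
          · rw [h1, h2] at hi; exact absurd rfl hi
          · rfl
        exact (key3 a' b' a b i h2 h1).symm
      · have h2 : co a' b' i = false := by
          cases h2 : co a' b' i
          · rfl
          · rw [h1, h2] at hi; exact absurd rfl hi
        exact key3 a b a' b' i h1 h2
  | w i j =>
    cases y with
    | z i => exact absurd (by simp [br]) hy
    | y t => exact absurd (by simp [br]) hy
    | v a b => exact ⟨.z i, by simp [br], key2 a b i j⟩
    | w i' j' =>
      by_cases hii : i = i'
      · subst hii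
        have hne : ∃ t, j t ≠ j' t := by
          by_contra hno
          push Not at hno
          apply hxy
          rw [funext hno]
        obtain ⟨t, ht⟩ := hne
        refine ⟨.y t, by simp [br], ?_⟩
        cases h1 : j t
        · have h2 : j' t = true := by
            cases h2 : j' t
            · rw [h1, h2] at ht; exact absurd rfl ht
            · rfl
          refine (key1 (by simp [br]) (Or.inl (Rel.wy i j' t h2)) (by simp) ?_).symm
          rintro (h | h)
          · cases h
            rename_i h3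
            rw [h1] at h3
            exact Bool.false_ne_true h3
          · cases h
        · have h2 : j' t = false := by
            cases h2 : j' t
            · rfl
            · rw [h1, h2] at ht; exact absurd rfl ht
          refine key1 (by simp [br]) (Or.inl (Rel.wy i j t h1)) (by simp) ?_
          rintro (h | h)
          · cases h
            rename_i h3
            rw [h2] at h3
            exact Bool.false_ne_true h3
          · cases h
      · refine ⟨.z i, by simp [br], key1 (by simp [br]) (Or.inl (Rel.wz i j)) (by simp) ?_⟩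
        rintro (h | h)
        · cases h
          exact hii rfl
        · cases h

lemma bdim_pad_zero (p : ℕ) : bdim (pad (Gp p) 0) ≤ 5 * p := by
  have hr : IsResolving (pad (Gp p) 0) (Sum.elim (br p) fun _ => 0) := by
    rintro (x | x) (y | y) hxy
    · obtain ⟨z, hz, hne⟩ := br_resolving p x y (fun h => hxy (by rw [h]))
      refine ⟨Sum.inl z, hz, ?_⟩
      let φ : Gp p →g pad (Gp p) 0 := ⟨Sum.inl, fun {a b} h => ⟨a, b, rfl, rfl, h⟩⟩
      let ψ : pad (Gp p) 0 →g Gp p :=
        ⟨Sum.elim id (fun t => t.elim0), by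
          rintro a b ⟨x, y, rfl, rfl, h⟩
          exact h⟩
      have hd : ∀ a b, (pad (Gp p) 0).edist (Sum.inl a) (Sum.inl b) = (Gp p).edist a b :=
        fun a b => le_antisymm (edist_hom_le φ a b) (edist_hom_le ψ (Sum.inl a) (Sum.inl b))
      rw [hd, hd]
      exact hne
    · exact y.elim0
    · exact x.elim0
    · exact x.elim0
  refine (bdim_le hr).trans ?_
  rw [Fintype.sum_sum_type]
  simp only [Sum.elim_inl, Sum.elim_inr, Finset.sum_const_zero, add_zero]
  exact (sum_br p).le

/-- the adjacency dimension is large -/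
lemma le_adim (p n : ℕ) (hp : 1 ≤ p) : 2 ^ p ≤ adim (pad (Gp p) n) := by
  classical
  obtain ⟨f, hf, h01, hs⟩ := adim_spec (G := pad (Gp p) n)
  rw [← hs]
  set S : Finset (Vx p ⊕ Fin n) := Finset.univ.filter fun x => f x ≠ 0 with hS
  have hcardS : S.card ≤ ∑ x, f x := by
    have h1 : S.card = ∑ x ∈ S, 1 := by simp
    rw [h1]
    refine (Finset.sum_le_sum (g := f) ?_).trans (Finset.sum_le_sum_of_subset (Finset.subset_univ _))
    intro x hx
    have := (Finset.mem_filter.1 hx).2
    omega
  -- the set of pairs dominated by a vertex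
  let D : Vx p ⊕ Fin n → Finset ((Fin p → Bool) × (Fin p → Bool)) := fun s =>
    Finset.univ.filter fun ab => (Sum.inl (Vx.v ab.1 ab.2) = s ∨
      (pad (Gp p) n).Adj (Sum.inl (Vx.v ab.1 ab.2)) s)
  have hD : ∀ s, (D s).card ≤ 2 ^ p := by
    intro s
    rcases s with (s | s)
    · cases s with
      | v a b =>
        have : D (Sum.inl (Vx.v a b)) ⊆ {(a, b)} := by
          intro ab hab
          rcases (Finset.mem_filter.1 hab).2 with h | h
          · have h := Sum.inl_injective h
            injection h with h1 h2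
            rw [Finset.mem_singleton]
            exact Prod.ext h1 h2
          · rw [pad_adj] at h
            rcases h with h | h <;> cases h
        exact (Finset.card_le_card this).trans (by simp [Nat.one_le_two_pow])
      | w i j =>
        have : D (Sum.inl (Vx.w i j)) ⊆ Finset.univ.image fun a : Fin p → Bool => (a, j) := by
          intro ab hab
          rcases (Finset.mem_filter.1 hab).2 with h | h
          · exact absurd (Sum.inl_injective h) (by simp)
          · rw [pad_adj] at h
            rcases h with h | h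
            · cases h
            · obtain ⟨a, b⟩ := ab
              cases h
              exact Finset.mem_image.2 ⟨a, Finset.mem_univ _, rfl⟩
        refine (Finset.card_le_card this).trans (Finset.card_image_le.trans ?_)
        simp
      | z i =>
        have : D (Sum.inl (Vx.z i)) ⊆ ∅ := by
          intro ab hab
          rcases (Finset.mem_filter.1 hab).2 with h | h
          · exact absurd (Sum.inl_injective h) (by simp)
          · rw [pad_adj] at h
            rcases h with h | h <;> cases h
        exact (Finset.card_le_card this).trans (by simp)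
      | y t =>
        have : D (Sum.inl (Vx.y t)) ⊆ ∅ := by
          intro ab hab
          rcases (Finset.mem_filter.1 hab).2 with h | h
          · exact absurd (Sum.inl_injective h) (by simp)
          · rw [pad_adj] at h
            rcases h with h | h <;> cases h
        exact (Finset.card_le_card this).trans (by simp)
    · have : D (Sum.inr s) ⊆ ∅ := by
        intro ab hab
        rcases (Finset.mem_filter.1 hab).2 with h | h
        · exact absurd h (by simp)
        · obtain ⟨x, y, -, hy, -⟩ := h
          exact absurd hy (by simp)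
      exact (Finset.card_le_card this).trans (by simp)
  -- all pairs but one are dominated
  have hcov : (Finset.univ \ S.biUnion D).card ≤ 1 := by
    rw [Finset.card_le_one]
    intro ab hab cd hcd
    by_contra hne
    have hne' : (Sum.inl (Vx.v ab.1 ab.2) : Vx p ⊕ Fin n) ≠ Sum.inl (Vx.v cd.1 cd.2) := by
      intro h
      have h := Sum.inl_injective h
      injection h with h1 h2
      exact hne (Prod.ext h1 h2)
    obtain ⟨s, hs0, hs1⟩ := hf _ _ hne'
    have hsS : s ∈ S := Finset.mem_filter.2 ⟨Finset.mem_univ _, hs0.ne'⟩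
    have hfs : f s = 1 := by
      rcases h01 s with h | h
      · omega
      · exact h
    have far : ∀ e : (Fin p → Bool) × (Fin p → Bool), e ∈ Finset.univ \ S.biUnion D →
        min ((pad (Gp p) n).edist (Sum.inl (Vx.v e.1 e.2)) s) ((f s : ℕ∞) + 1) = 2 := by
      intro e he
      have hnot : ¬ (pad (Gp p) n).edist (Sum.inl (Vx.v e.1 e.2)) s ≤ 1 := by
        intro h
        apply (Finset.mem_sdiff.1 he).2
        rw [Finset.mem_biUnion]
        exact ⟨s, hsS, Finset.mem_filter.2 ⟨Finset.mem_univ _, (edist_le_one_iff _ _).1 h⟩⟩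
      have h2 : (2 : ℕ∞) ≤ (pad (Gp p) n).edist (Sum.inl (Vx.v e.1 e.2)) s := by
        have := Order.add_one_le_of_lt (not_le.1 hnot)
        rwa [one_add_one_eq_two] at this
      rw [hfs, Nat.cast_one, one_add_one_eq_two]
      exact min_eq_right h2
    exact hs1 (by rw [far ab hab, far cd hcd])
  have htot : (2 ^ p) * (2 ^ p) ≤ S.card * 2 ^ p + 1 := by
    have h1 : (Finset.univ : Finset ((Fin p → Bool) × (Fin p → Bool))).card = 2 ^ p * 2 ^ p := by
      simp
    have h2 := Finset.card_sdiff_add_card_eq_card (Finset.subset_univ (S.biUnion D))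
    have h3 : (S.biUnion D).card ≤ S.card * 2 ^ p := Finset.card_biUnion_le_card_mul _ _ _
      fun s _ => hD s
    rw [h1] at h2
    omega
  refine le_trans ?_ hcardS
  by_contra hlt
  push Not at hlt
  have h2p : 2 ≤ 2 ^ p := by
    calc 2 = 2 ^ 1 := rfl
      _ ≤ 2 ^ p := Nat.pow_le_pow_right (by norm_num) hp
  have h4 : S.card + 1 ≤ 2 ^ p := hlt
  have h5 : (S.card + 1) * 2 ^ p ≤ 2 ^ p * 2 ^ p := Nat.mul_le_mul_right _ h4
  rw [add_mul, one_mul] at h5
  omega

/-- There is a sequence of finite graphs `G_k` with `bdim (G_k) = k` for every `k ≥ 1` and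
`adim (G_k) ≥ 2 ^ (c k)` for all large `k`, with a constant `c > 0` (namely `c = 1 / 10`). -/
theorem result : ∃ (V : ℕ → Type) (_ : ∀ k, Fintype (V k)) (G : ∀ k, SimpleGraph (V k)),
    (∀ k, 1 ≤ k → bdim (G k) = k) ∧
      ∃ c : ℝ, 0 < c ∧ ∃ N : ℕ, ∀ k, N < k → (2 : ℝ) ^ (c * k) ≤ adim (G k) := by
  have key : ∀ k : ℕ, ∃ n : ℕ, bdim (pad (Gp (k / 5)) n) = k := by
    intro k
    apply interpolate (fun n => bdim (pad (Gp (k / 5)) n))
    · intro j; exact bdim_pad_succ _ j
    · intro j; exact le_bdim_pad _ j
    · exact (bdim_pad_zero _).trans (by omega)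
  choose n hn using key
  refine ⟨fun k => Vx (k / 5) ⊕ Fin (n k), fun k => inferInstance,
    fun k => pad (Gp (k / 5)) (n k), fun k _ => hn k, 1 / 10, by norm_num, 10, ?_⟩
  intro k hk
  have h1 : 1 ≤ k / 5 := by omega
  have h2 := le_adim (k / 5) (n k) h1
  have h3 : ((2 : ℝ) ^ (k / 5 : ℕ)) ≤ adim (pad (Gp (k / 5)) (n k)) := by exact_mod_cast h2
  refine le_trans ?_ h3
  rw [← Real.rpow_natCast]
  apply Real.rpow_le_rpow_of_exponent_le (by norm_num)
  have h4 : k ≤ 10 * (k / 5) := by omega
  have h5 : (k : ℝ) ≤ 10 * ((k / 5 : ℕ) : ℝ) := by exact_mod_cast h4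
  linarith

end Pool.Agent.Results.MP_d61170_co.ExponentialGap
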